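import Pool.Agent.H73.QA.Part
import Pool.Agent.H73.QA.Fam

/-!
# Quantum annealing does not beat the exponent 1/2 for k-SAT, as k grows

Hamiltonians `H = - ∑ S, α S X_S + b * viol F`, where `F` is a `k`-CNF formula with a planted
solution `z`.  For every `e > 0` there is `ε`, and for all `γ, ζ > 0` there is `k₀`, such that for
`k ≥ k₀` and at least `c n` clauses all but the fraction `2 ^ (-n)` of the formulas satisfied by `z`
have the property `Hard e ε γ ζ`:

for every schedule of admissible Hamiltonians (class `Driver ε γ` of the driver `α`), made of
continuous paths and jumps, whose ground states are all separated by at least `g` times the scale,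
and such that the overlaps at the start (with the uniform superposition) and at the jumps exceed
`2 ^ (-(1 / 2 - e) n) / g`, the schedule stays in the region where the driver dominates, and the
last ground state has amplitude at most `2 ^ (-(1 / 2 - e) n) / g` on the assignments that violate
at most the fraction `(1 - ζ) / 2 ^ k` of the clauses (a random assignment violates `1 / 2 ^ k`).

The schedules may depend on the formula and on `z`.  One continuous path that starts at `b = 0`
(where the ground state is the uniform superposition) and ends in the region where the cost
dominates therefore contains relative gaps of at most `2 ^ (-(1 / 2 - e) n)`.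

The class of drivers contains all permutation symmetric drivers without the terms `X_∅` and
`X_univ`, and all transverse fields of bounded ratio.  The definitions are in
`Pool/Agent/H73/QA/Stmt.lean`.

Proof.  The cost is at least `(1 - η) m / 2 ^ k` outside a Hamming ball `R` of radius `ε n` around
`z` (lower tail of a binomial distribution, union bound).  Flatten the cost inside `R`.  The ground
state of the flattened Hamiltonian is dominated by `n / γ` steps of the lazy random walk of the
driver, so all its entries are at most `2 ^ (-(1 / 2 - e / 4) n)`; it has little mass in `R`.  If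
the lowest energies of the two Hamiltonians differ by less than `g / 4` times the scale, then the
two ground states almost agree and the energies differ even by much less; if not, the same
domination for the resolvent at the lowest energy of `H` shows that the ground state of `H` is
almost orthogonal to the uniform superposition, hence to all ground states of the first kind.  By
continuity and by the overlaps a schedule of the first kind stays of the first kind.
-/

namespace Pool.Agent.Results.MP_0f8dca_lc.AnnealingSETH

open Finset Pool.Agent.H73.QA

theorem result (e : ℝ) (he : 0 < e) : ∃ ε : ℝ, 0 < ε ∧ ε < 1 / 2 ∧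
    (∀ γ ζ : ℝ, 0 < γ → 0 < ζ → ∃ k₀ : ℕ, ∀ k ≥ k₀, ∃ c n₀ : ℕ, ∀ n ≥ n₀, ∀ m ≥ c * n,
      ∀ z : Cube n,
        (Nat.card {F : Fin m → Clause n k // viol F z = 0 ∧ ¬ Hard e ε γ ζ F} : ℝ) ≤
          Nat.card {F : Fin m → Clause n k // viol F z = 0} / 2 ^ n) ∧
    (∀ (n : ℕ) (α : Finset (Fin n) → ℝ), α ∅ = 0 → α univ = 0 → (∀ S, 0 ≤ α S) →
      (∀ S T : Finset (Fin n), S.card = T.card → α S = α T) → Driver ε (ε * (1 - ε)) α) ∧
    (∀ (n : ℕ) (α : Finset (Fin n) → ℝ) (a L : ℝ), 0 ≤ a → 0 < L →
      (∀ S, S.card ≠ 1 → α S = 0) → (∀ i, a ≤ α {i} ∧ α {i} ≤ L * a) →
        Driver ε (ε / L) α) := by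
  obtain ⟨ε, h1, h2, h3⟩ := part e he
  exact ⟨ε, h1, h2, h3, fun n α h0 hu hn hs => driver_symm ε h1 h2 α h0 hu hn hs,
    fun n α a L ha hL hS hi => driver_field ε h1 α a L ha hL hS hi⟩

end Pool.Agent.Results.MP_0f8dca_lc.AnnealingSETH
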